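import Pool.Agent.PCL.Stmts

/-!
# Squad PCL, row ARC (helper90): a polynomial of degree at most `m` with leading coefficient `c_m`
is small only near few points
-/

set_option autoImplicit false

namespace Pool.Agent.PCL.H90

open Polynomial

/-- strictly increasing integers grow at least like the index -/
theorem strict_add_le {N : ℕ} (e : Fin N → ℤ) (he : StrictMono e) :
    ∀ (d : ℕ) (i j : Fin N), (j : ℕ) = i + d → e i + d ≤ e j := by
  intro d
  induction d with
  | zero =>
    intro i j hij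
    have : i = j := Fin.ext (by omega)
    subst this
    simp
  | succ d ih =>
    intro i j hij
    have hj : (i : ℕ) + d < N := by have := j.2; omega
    have h1 := ih i ⟨(i : ℕ) + d, hj⟩ rfl
    have h2 : e ⟨(i : ℕ) + d, hj⟩ < e j := by
      apply he
      rw [Fin.lt_def]
      simp only
      omega
    push_cast
    linarith

theorem arc : ArcStmt := by
  classical
  intro m f A η hη hdeg hA
  by_contra hcon
  rw [not_le] at hcon
  set e : Fin A.card ↪o ℤ := A.orderEmbOfFin rfl with he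
  have hlt : ∀ k : Fin (m + 1), (k : ℕ) * η < A.card := by
    intro k
    refine lt_of_le_of_lt ?_ hcon
    exact Nat.mul_le_mul_right η (Nat.lt_succ_iff.mp k.2)
  set x : Fin (m + 1) → ℤ := fun k => e ⟨(k : ℕ) * η, hlt k⟩ with hx
  have hxA : ∀ k, x k ∈ A := fun k => Finset.orderEmbOfFin_mem A rfl _
  have hmono : StrictMono (fun i => e i) := e.strictMono
  have hord : ∀ k l : Fin (m + 1), k < l → x k + (η : ℤ) ≤ x l := by
    intro k l hkl
    have hkl' : (k : ℕ) < l := hkl
    obtain ⟨t, ht⟩ : ∃ t : ℕ, (l : ℕ) = k + (t + 1) := ⟨(l : ℕ) - k - 1, by omega⟩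
    have h1 := strict_add_le (fun i => e i) hmono ((t + 1) * η) ⟨(k : ℕ) * η, hlt k⟩
      ⟨(l : ℕ) * η, hlt l⟩ (by simp only; rw [ht]; ring)
    have h2 : (η : ℤ) ≤ (((t + 1) * η : ℕ) : ℤ) := by
      have : η ≤ (t + 1) * η := Nat.le_mul_of_pos_left η (Nat.succ_pos t)
      exact_mod_cast this
    calc x k + (η : ℤ) ≤ x k + (((t + 1) * η : ℕ) : ℤ) := by linarith
      _ ≤ x l := h1
  have hsep : ∀ k l : Fin (m + 1), k ≠ l → (η : ℝ) ≤ |(x k : ℝ) - (x l : ℝ)| := by
    intro k l hkl
    rcases lt_or_gt_of_ne hkl with h | h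
    · have h1 := hord k l h
      have h2 : (x k : ℝ) + (η : ℝ) ≤ (x l : ℝ) := by exact_mod_cast h1
      rw [abs_sub_comm]
      exact le_trans (by linarith) (le_abs_self _)
    · have h1 := hord l k h
      have h2 : (x l : ℝ) + (η : ℝ) ≤ (x k : ℝ) := by exact_mod_cast h1
      exact le_trans (by linarith) (le_abs_self _)
  have hη' : (0 : ℝ) < η := by exact_mod_cast hη
  set P : ℝ[X] := f.map (Int.castRingHom ℝ) with hP
  have hinj : Set.InjOn (fun k : Fin (m + 1) => (x k : ℝ)) (Finset.univ : Finset (Fin (m + 1))) := by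
    intro k _ l _ hkl
    by_contra hne
    have h1 := hsep k l hne
    simp only at hkl
    rw [hkl, sub_self, abs_zero] at h1
    linarith
  have hPdeg : P.degree < (Finset.univ : Finset (Fin (m + 1))).card := by
    rw [Finset.card_univ, Fintype.card_fin]
    refine lt_of_le_of_lt (Polynomial.degree_map_le) ?_
    refine lt_of_le_of_lt (Polynomial.degree_le_of_natDegree_le hdeg) ?_
    exact_mod_cast Nat.lt_succ_self m
  have hsum := Lagrange.coeff_eq_sum (s := (Finset.univ : Finset (Fin (m + 1))))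
    (v := fun k : Fin (m + 1) => (x k : ℝ)) hinj hPdeg
  have hcoef : P.coeff ((Finset.univ : Finset (Fin (m + 1))).card - 1) = (f.coeff m : ℝ) := by
    rw [Finset.card_univ, Fintype.card_fin, Nat.add_sub_cancel, hP, Polynomial.coeff_map]
    simp
  have heval : ∀ k : Fin (m + 1), P.eval (x k : ℝ) = ((f.eval (x k) : ℤ) : ℝ) := by
    intro k
    rw [hP, Polynomial.eval_intCast_map]
    simp
  rw [hcoef] at hsum
  have hterm : ∀ k : Fin (m + 1),
      |P.eval (x k : ℝ) / ∏ j ∈ (Finset.univ : Finset (Fin (m + 1))).erase k,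
        ((x k : ℝ) - (x j : ℝ))| ≤ |((f.eval (x k) : ℤ) : ℝ)| / (η : ℝ) ^ m := by
    intro k
    rw [abs_div, heval, Finset.abs_prod]
    have h1 : (η : ℝ) ^ m ≤ ∏ j ∈ (Finset.univ : Finset (Fin (m + 1))).erase k,
        |(x k : ℝ) - (x j : ℝ)| := by
      have hc : ((Finset.univ : Finset (Fin (m + 1))).erase k).card = m := by
        rw [Finset.card_erase_of_mem (Finset.mem_univ k), Finset.card_univ, Fintype.card_fin,
          Nat.add_sub_cancel]
      calc (η : ℝ) ^ m = ∏ _j ∈ (Finset.univ : Finset (Fin (m + 1))).erase k, (η : ℝ) := by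
            rw [Finset.prod_const, hc]
        _ ≤ _ := by
            refine Finset.prod_le_prod (fun _ _ => hη'.le) ?_
            intro j hj
            exact hsep k j (Finset.ne_of_mem_erase hj).symm
    exact div_le_div_of_nonneg_left (abs_nonneg _) (pow_pos hη' m) h1
  have habs : |(f.coeff m : ℝ)| ≤ ∑ k : Fin (m + 1), |((f.eval (x k) : ℤ) : ℝ)| / (η : ℝ) ^ m := by
    rw [hsum]
    refine le_trans (Finset.abs_sum_le_sum_abs _ _) ?_
    exact Finset.sum_le_sum fun k _ => hterm k
  have hstrict : ∑ k : Fin (m + 1), |((f.eval (x k) : ℤ) : ℝ)| / (η : ℝ) ^ m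
      < ∑ _k : Fin (m + 1), |(f.coeff m : ℝ)| / ((m : ℝ) + 1) := by
    refine Finset.sum_lt_sum_of_nonempty Finset.univ_nonempty ?_
    intro k _
    have h1 := hA (x k) (hxA k)
    have hm : (0 : ℝ) < (m : ℝ) + 1 := by positivity
    rw [div_lt_div_iff₀ (pow_pos hη' m) hm]
    calc |((f.eval (x k) : ℤ) : ℝ)| * ((m : ℝ) + 1)
        = ((m : ℝ) + 1) * |((f.eval (x k) : ℤ) : ℝ)| := by ring
      _ < |(f.coeff m : ℝ)| * (η : ℝ) ^ m := h1
  have hconst : ∑ _k : Fin (m + 1), |(f.coeff m : ℝ)| / ((m : ℝ) + 1) = |(f.coeff m : ℝ)| := by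
    rw [Finset.sum_const, Finset.card_univ, Fintype.card_fin, nsmul_eq_mul]
    have hm : ((m : ℝ) + 1) ≠ 0 := by positivity
    push_cast
    field_simp
  rw [hconst] at hstrict
  linarith

end Pool.Agent.PCL.H90
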